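import Pool.Agent.TH388.E2
import Pool.Agent.H801R3.NS.Defs

/-!
# E2 in coordinates

The inequality of `Pool.Agent.TH388.E2.e2` for sets of functions `Fin m → ℝ`.
-/

set_option autoImplicit false

noncomputable section

open MeasureTheory Set
open scoped ENNReal RealInnerProductSpace Pointwise Matrix

namespace Pool.Agent.TH388.E2

variable {m : ℕ}

/-- the linear equivalence -/
def L2 (m : ℕ) : EuclideanSpace ℝ (Fin m) ≃ₗ[ℝ] (Fin m → ℝ) := WithLp.linearEquiv 2 ℝ (Fin m → ℝ)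

lemma L2_cont : Continuous (L2 m) := PiLp.continuous_ofLp 2 _

lemma L2_symm_cont : Continuous (L2 m).symm := PiLp.continuous_toLp 2 _

lemma L2_vol (S : Set (Fin m → ℝ)) : volume ((L2 m) ⁻¹' S) = volume S := by
  have h1 : MeasurePreserving (WithLp.ofLp : EuclideanSpace ℝ (Fin m) → (Fin m → ℝ)) :=
    PiLp.volume_preserving_ofLp (Fin m)
  have h2 : MeasurableEmbedding (WithLp.ofLp : EuclideanSpace ℝ (Fin m) → (Fin m → ℝ)) :=
    (MeasurableEquiv.toLp 2 (Fin m → ℝ)).symm.measurableEmbedding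
  exact h1.measure_preimage_emb h2 S

lemma L2_inner (x y : EuclideanSpace ℝ (Fin m)) : ⟪x, y⟫ = (L2 m x) ⬝ᵥ (L2 m y) := by
  have h1 : x = WithLp.toLp 2 (WithLp.ofLp x) := rfl
  have h2 : y = WithLp.toLp 2 (WithLp.ofLp y) := rfl
  conv_lhs => rw [h1, h2]
  rw [EuclideanSpace.inner_toLp_toLp, star_trivial, dotProduct_comm]
  rfl

lemma L2_pol (K : Set (Fin m → ℝ)) : pol ((L2 m) ⁻¹' K) = (L2 m) ⁻¹' (H801NS.pol K) := by
  ext y
  constructor
  · intro h x hx
    have h1 := h ((L2 m).symm x) (by rw [mem_preimage, LinearEquiv.apply_symm_apply]; exact hx)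
    rwa [L2_inner, LinearEquiv.apply_symm_apply] at h1
  · intro h x hx
    rw [L2_inner]
    exact h _ hx

lemma L2_pre (S : Set (Fin m → ℝ)) : (L2 m) ⁻¹' S = (L2 m).symm '' S :=
  ((L2 m).symm.toEquiv.image_eq_preimage_symm S).symm

lemma L2_smul (c : ℝ) (S : Set (Fin m → ℝ)) : (L2 m) ⁻¹' (c • S) = c • ((L2 m) ⁻¹' S) := by
  rw [L2_pre, L2_pre]
  exact image_smul_set _ _ _

lemma L2_hull (S : Set (Fin m → ℝ)) :
    (L2 m) ⁻¹' (convexHull ℝ S) = convexHull ℝ ((L2 m) ⁻¹' S) := by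
  rw [L2_pre, L2_pre]
  exact (L2 m).symm.toLinearMap.image_convexHull S

/-- **E2** in coordinates -/
theorem e2F {K : Set (Fin m → ℝ)} (hK : H801NS.NB K) (u : ℝ) :
    (2 : ℝ) ^ m ≤ m.factorial * (volume.real (K ∩ -K) *
      volume.real (convexHull ℝ ((1 - u) • H801NS.pol K ∪ (-u) • H801NS.pol K))) := by
  have hc : IsCompact ((L2 m) ⁻¹' K) := by
    rw [L2_pre]
    exact hK.comp.image L2_symm_cont
  have hv : Convex ℝ ((L2 m) ⁻¹' K) := hK.conv.linear_preimage (L2 m).toLinearMap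
  have h0 : (0 : EuclideanSpace ℝ (Fin m)) ∈ interior ((L2 m) ⁻¹' K) := by
    refine preimage_interior_subset_interior_preimage L2_cont ?_
    rw [mem_preimage, map_zero]
    exact hK.zero
  have h := e2 hc hv h0 u
  have e1 : (L2 m) ⁻¹' K ∩ -((L2 m) ⁻¹' K) = (L2 m) ⁻¹' (K ∩ -K) := by
    ext x
    simp only [mem_inter_iff, mem_neg, mem_preimage, map_neg]
  rw [L2_pol, ← L2_smul, ← L2_smul, ← preimage_union, ← L2_hull, e1] at h
  rw [measureReal_def, measureReal_def, L2_vol, L2_vol, ← measureReal_def, ← measureReal_def] at h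
  rwa [div_le_iff₀' (by positivity)] at h

end Pool.Agent.TH388.E2
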