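import Pool.Agent.W679.AM.Cor

/-!
# The inequality `2^n / n! ≤ |K ∩ -K| |conv((1-f) K° ∪ -f K°)|` for every `0 ≤ f ≤ 1`

A corollary of the inequality `W679AM.asym_real` for the harmonic body, applied to the body
`{x | (1-f) x ∈ K, -f x ∈ K}`, whose polar is `conv((1-f) K° ∪ -f K°)`.
-/

set_option autoImplicit false

noncomputable section

open MeasureTheory Set
open scoped ENNReal RealInnerProductSpace Pointwise

namespace Pool.Agent.TH388.E2

variable {n : ℕ} {K : Set (EuclideanSpace ℝ (Fin n))}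

/-- the polar body with respect to the origin -/
def pol (K : Set (EuclideanSpace ℝ (Fin n))) : Set (EuclideanSpace ℝ (Fin n)) :=
  {y | ∀ x ∈ K, ⟪x, y⟫ ≤ 1}

/-- `conv((1-f) P ∪ -f P)` -/
def hul (f : ℝ) (P : Set (EuclideanSpace ℝ (Fin n))) : Set (EuclideanSpace ℝ (Fin n)) :=
  convexHull ℝ ((1 - f) • P ∪ (-f) • P)

lemma zero_mem_pol : (0 : EuclideanSpace ℝ (Fin n)) ∈ pol K := by
  intro x _
  rw [inner_zero_right]
  exact zero_le_one

/-- a closed convex set which contains `0` is its bipolar -/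
lemma bip (hcl : IsClosed K) (hv : Convex ℝ K) (h0 : (0 : EuclideanSpace ℝ (Fin n)) ∈ K)
    {z : EuclideanSpace ℝ (Fin n)} (hz : ∀ y ∈ pol K, ⟪z, y⟫ ≤ 1) : z ∈ K := by
  by_contra hcon
  obtain ⟨g, s, hg1, hg2⟩ := geometric_hahn_banach_closed_point hv hcl hcon
  set u : EuclideanSpace ℝ (Fin n) := (InnerProductSpace.toDual ℝ _).symm g with hu
  have hgu : ∀ x, ⟪x, u⟫ = g x := by
    intro x
    rw [real_inner_comm, hu, InnerProductSpace.toDual_symm_apply]
  have hs : 0 < s := by
    have := hg1 0 h0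
    rwa [map_zero] at this
  have h1 : s⁻¹ • u ∈ pol K := by
    intro x hx
    rw [inner_smul_right, hgu]
    have := (hg1 x hx).le
    rw [inv_mul_le_iff₀ hs, mul_one]
    exact this
  have h2 := hz _ h1
  rw [inner_smul_right, hgu, inv_mul_le_iff₀ hs, mul_one] at h2
  linarith

lemma pol_bdd (h0 : (0 : EuclideanSpace ℝ (Fin n)) ∈ interior K) :
    Bornology.IsBounded (pol K) := by
  obtain ⟨r, hr, hrK⟩ := Metric.isOpen_iff.1 isOpen_interior _ h0
  refine (Metric.isBounded_closedBall (x := (0 : EuclideanSpace ℝ (Fin n)))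
    (r := 2 / r)).subset fun y hy => ?_
  rw [mem_closedBall_zero_iff]
  by_cases hy0 : y = 0
  · rw [hy0, norm_zero]
    positivity
  · have hny : 0 < ‖y‖ := norm_pos_iff.2 hy0
    have h1 : (r / (2 * ‖y‖)) • y ∈ K := by
      refine interior_subset (hrK ?_)
      rw [mem_ball_zero_iff, norm_smul, Real.norm_of_nonneg (by positivity)]
      have : r / (2 * ‖y‖) * ‖y‖ = r / 2 := by field_simp
      rw [this]
      linarith
    have h2 := hy _ h1
    rw [inner_smul_left, real_inner_self_eq_norm_sq] at h2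
    simp only [conj_trivial] at h2
    have : r / (2 * ‖y‖) * ‖y‖ ^ 2 = r * ‖y‖ / 2 := by field_simp
    rw [this] at h2
    rw [le_div_iff₀ hr]
    linarith

lemma hul_bdd {f : ℝ} {P : Set (EuclideanSpace ℝ (Fin n))} (hP : Bornology.IsBounded P) :
    Bornology.IsBounded (hul f P) :=
  isBounded_convexHull.2 ((hP.smul₀ _).union (hP.smul₀ _))

/-- the body whose polar is `conv((1-f) K° ∪ -f K°)` -/
def lb (f : ℝ) (K : Set (EuclideanSpace ℝ (Fin n))) : Set (EuclideanSpace ℝ (Fin n)) :=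
  {x | (1 - f) • x ∈ K ∧ (-f) • x ∈ K}

lemma lb_compact (hc : IsCompact K) (f : ℝ) : IsCompact (lb f K) := by
  have hcl : IsClosed (lb f K) :=
    (hc.isClosed.preimage (continuous_const_smul (1 - f))).inter
      (hc.isClosed.preimage (continuous_const_smul (-f)))
  rcases ne_or_eq f 0 with hf | hf
  · refine (hc.smul (-f)⁻¹).of_isClosed_subset hcl fun x hx => ?_
    refine ⟨_, hx.2, ?_⟩
    show (-f)⁻¹ • ((-f) • x) = x
    rw [smul_smul, inv_mul_cancel₀ (neg_ne_zero.2 hf), one_smul]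
  · refine hc.of_isClosed_subset hcl fun x hx => ?_
    have := hx.1
    rwa [hf, sub_zero, one_smul] at this

lemma lb_convex (hv : Convex ℝ K) (f : ℝ) : Convex ℝ (lb f K) := by
  intro x hx y hy a b ha hb hab
  constructor
  · have := hv hx.1 hy.1 ha hb hab
    rwa [smul_comm a, smul_comm b, ← smul_add] at this
  · have := hv hx.2 hy.2 ha hb hab
    rwa [smul_comm a, smul_comm b, ← smul_add] at this

lemma lb_int (h0 : (0 : EuclideanSpace ℝ (Fin n)) ∈ interior K) (f : ℝ) :
    (0 : EuclideanSpace ℝ (Fin n)) ∈ interior (lb f K) := by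
  rw [mem_interior_iff_mem_nhds] at h0 ⊢
  refine Filter.inter_mem ?_ ?_
  · exact (continuous_const_smul (1 - f)).continuousAt.preimage_mem_nhds (by rwa [smul_zero])
  · exact (continuous_const_smul (-f)).continuousAt.preimage_mem_nhds (by rwa [smul_zero])

lemma prz_lb (hc : IsCompact K) (hv : Convex ℝ K)
    (h0 : (0 : EuclideanSpace ℝ (Fin n)) ∈ interior K) (f : ℝ) :
    W679AM.prz (lb f K) 0 ⊆ K := by
  have h00 := interior_subset h0
  have hLc := lb_compact hc f
  have hLv := lb_convex hv f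
  have hL0 := lb_int h0 f
  intro x hx
  refine bip hc.isClosed hv h00 fun y hy => ?_
  by_contra hcon
  push Not at hcon
  have hy0 : y ≠ 0 := by
    rintro rfl
    rw [inner_zero_right] at hcon
    linarith
  obtain ⟨a, ha, hamax⟩ := hLc.exists_isMaxOn ⟨0, interior_subset hL0⟩
    (f := fun x : EuclideanSpace ℝ (Fin n) => ⟪x - 0, y⟫) (by fun_prop)
  obtain ⟨b, hb, hbmax⟩ := hLc.exists_isMaxOn ⟨0, interior_subset hL0⟩
    (f := fun x : EuclideanSpace ℝ (Fin n) => ⟪x - 0, -y⟫) (by fun_prop)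
  have e1 : W679AM.hz (lb f K) 0 y = ⟪a, y⟫ := by
    have : W679AM.hz (lb f K) 0 y = ⟪a - 0, y⟫ :=
      le_antisymm (W679AM.hz_le (interior_subset hL0) _ _ fun x hx => hamax hx)
        (W679AM.le_hz hLc ha y)
    rwa [sub_zero] at this
  have e2 : W679AM.hz (lb f K) 0 (-y) = ⟪b, -y⟫ := by
    have : W679AM.hz (lb f K) 0 (-y) = ⟪b - 0, -y⟫ :=
      le_antisymm (W679AM.hz_le (interior_subset hL0) _ _ fun x hx => hbmax hx)
        (W679AM.le_hz hLc hb (-y))
    rwa [sub_zero] at this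
  have p1 : 0 < W679AM.hz (lb f K) 0 y := W679AM.hz_pos hLc hLv hL0 hy0
  have p2 : 0 < W679AM.hz (lb f K) 0 (-y) := W679AM.hz_pos hLc hLv hL0 (neg_ne_zero.2 hy0)
  have q1 : (1 - f) * W679AM.hz (lb f K) 0 y ≤ 1 := by
    have := hy _ ha.1
    rw [inner_smul_left] at this
    rw [e1]
    simpa using this
  have q2 : f * W679AM.hz (lb f K) 0 (-y) ≤ 1 := by
    have := hy _ hb.2
    rw [inner_smul_left] at this
    rw [e2, inner_neg_right]
    have h3 : (-f) * ⟪b, y⟫ ≤ 1 := by simpa using this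
    linarith
  have h1 := hx y
  set H1 := W679AM.hz (lb f K) 0 y
  set H2 := W679AM.hz (lb f K) 0 (-y)
  have h2 : ⟪x, y⟫ * (H1 + H2) ≤ H1 * H2 :=
    (mul_le_mul_of_nonneg_right (le_abs_self _) (by positivity)).trans h1
  have h3 : (1 - f) * H1 * H2 ≤ 1 * H2 := mul_le_mul_of_nonneg_right q1 p2.le
  have h4 : f * H2 * H1 ≤ 1 * H1 := mul_le_mul_of_nonneg_right q2 p1.le
  nlinarith [mul_lt_mul_of_pos_right hcon (add_pos p1 p2)]

lemma prz_symm (L : Set (EuclideanSpace ℝ (Fin n))) {x : EuclideanSpace ℝ (Fin n)}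
    (hx : x ∈ W679AM.prz L 0) : -x ∈ W679AM.prz L 0 := by
  intro u
  rw [inner_neg_left, abs_neg]
  exact hx u

lemma plz_lb (hc : IsCompact K) (hv : Convex ℝ K)
    (h0 : (0 : EuclideanSpace ℝ (Fin n)) ∈ interior K) (f : ℝ) :
    W679AM.plz (lb f K) 0 ⊆ closure (hul f (pol K)) := by
  intro y hy
  by_contra hcon
  have h00 := interior_subset h0
  obtain ⟨g, s, hg1, hg2⟩ := geometric_hahn_banach_closed_point
    (convex_convexHull ℝ _).closure isClosed_closure hcon
  set u : EuclideanSpace ℝ (Fin n) := (InnerProductSpace.toDual ℝ _).symm g with hu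
  have hgu : ∀ x, ⟪u, x⟫ = g x := by
    intro x
    rw [hu, InnerProductSpace.toDual_symm_apply]
  have hmem1 : ∀ z ∈ pol K, (1 - f) • z ∈ closure (hul f (pol K)) := fun z hz =>
    subset_closure (subset_convexHull ℝ _ (Or.inl ⟨z, hz, rfl⟩))
  have hmem2 : ∀ z ∈ pol K, (-f) • z ∈ closure (hul f (pol K)) := fun z hz =>
    subset_closure (subset_convexHull ℝ _ (Or.inr ⟨z, hz, rfl⟩))
  have hs : 0 < s := by
    have := hg1 _ (hmem1 0 zero_mem_pol)
    rwa [smul_zero, map_zero] at this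
  have hx : s⁻¹ • u ∈ lb f K := by
    constructor
    · refine bip hc.isClosed hv h00 fun z hz => ?_
      have h1 := (hg1 _ (hmem1 z hz)).le
      rw [← hgu, inner_smul_right] at h1
      rw [inner_smul_left, inner_smul_left]
      simp only [conj_trivial]
      have h2 : (1 - f) * (s⁻¹ * ⟪u, z⟫) = s⁻¹ * ((1 - f) * ⟪u, z⟫) := by ring
      rw [h2, inv_mul_le_iff₀ hs, mul_one]
      exact h1
    · refine bip hc.isClosed hv h00 fun z hz => ?_
      have h1 := (hg1 _ (hmem2 z hz)).le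
      rw [← hgu, inner_smul_right] at h1
      rw [inner_smul_left, inner_smul_left]
      simp only [conj_trivial]
      have h2 : (-f) * (s⁻¹ * ⟪u, z⟫) = s⁻¹ * ((-f) * ⟪u, z⟫) := by ring
      rw [h2, inv_mul_le_iff₀ hs, mul_one]
      exact h1
  have h3 := hy _ hx
  rw [sub_zero, inner_smul_left, hgu] at h3
  simp only [conj_trivial] at h3
  rw [inv_mul_le_iff₀ hs, mul_one] at h3
  linarith

/-- **E2**: `2^n / n! ≤ |K ∩ -K| |conv((1-f) K° ∪ -f K°)|` for every `f` (in particular for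
`0 ≤ f ≤ 1`), `K` a convex body with `0` in its interior. -/
theorem e2 (hc : IsCompact K) (hv : Convex ℝ K)
    (h0 : (0 : EuclideanSpace ℝ (Fin n)) ∈ interior K) (f : ℝ) :
    (2 : ℝ) ^ n / n.factorial ≤
      volume.real (K ∩ -K) * volume.real (convexHull ℝ ((1 - f) • pol K ∪ (-f) • pol K)) := by
  have h1 := W679AM.asym_real (lb_compact hc f) (lb_convex hv f) (lb_int h0 f)
  have hfin : volume (closure (hul f (pol K))) ≠ ⊤ :=
    ((hul_bdd (pol_bdd h0)).closure.measure_lt_top).ne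
  have hfK : volume (K ∩ -K) ≠ ⊤ :=
    (lt_of_le_of_lt (measure_mono inter_subset_left) hc.measure_lt_top).ne
  have h2 : volume.real (W679AM.prz (lb f K) 0) ≤ volume.real (K ∩ -K) := by
    refine measureReal_mono (fun x hx => ⟨prz_lb hc hv h0 f hx, ?_⟩) hfK
    exact prz_lb hc hv h0 f (prz_symm _ hx)
  have h3 : volume.real (W679AM.plz (lb f K) 0) ≤ volume.real (closure (hul f (pol K))) :=
    measureReal_mono (plz_lb hc hv h0 f) hfin
  have h4 : volume.real (closure (hul f (pol K))) = volume.real (hul f (pol K)) := by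
    refine measureReal_congr ?_
    have h5 : volume (frontier (hul f (pol K))) = 0 :=
      (convex_convexHull ℝ _).addHaar_frontier volume
    exact (closure_ae_eq_of_null_frontier h5)
  rw [h4] at h3
  exact h1.trans (mul_le_mul h2 h3 measureReal_nonneg measureReal_nonneg)

end Pool.Agent.TH388.E2
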